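import Pool.Agent.NPG.Stmts

set_option autoImplicit false

open Set Topology

namespace Pool.Agent.NPG.H26

open Pool.Agent.LSG Pool.Agent.NPG

section

variable {X : Type} [TopologicalSpace X]

/-- restriction -/
noncomputable def res (A : Set X) : ↥(Cp X) →L[ℝ] ↥(Cp ↥A) where
  toFun := fun f => ⟨fun a => f.1 a.1, Continuous.comp f.2 continuous_subtype_val⟩
  map_add' := by intros; rfl
  map_smul' := by intros; rfl
  cont := by
    refine Continuous.subtype_mk ?_ _
    refine continuous_pi fun a => ?_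
    exact (continuous_apply a.1).comp continuous_subtype_val

/-- the points covered before `n` -/
def AA (D : ℕ → Set X) (n : ℕ) : Set X := {x | ∃ m < n, x ∈ D m}

theorem AA_closed {D : ℕ → Set X} (hD : ∀ n, IsClosed (D n)) (n : ℕ) : IsClosed (AA D n) := by
  have : AA D n = ⋃ m ∈ Finset.range n, D m := by
    ext x; simp [AA]
  rw [this]
  exact isClosed_biUnion_finset fun i _ => hD i

omit [TopologicalSpace X] in
theorem AA_succ {D : ℕ → Set X} {n : ℕ} {x : X} :
    x ∈ AA D (n + 1) ↔ x ∈ AA D n ∨ x ∈ D n := by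
  constructor
  · rintro ⟨m, hm, h⟩
    rcases Nat.lt_succ_iff_lt_or_eq.1 hm with h1 | h1
    · exact Or.inl ⟨m, h1, h⟩
    · exact Or.inr (h1 ▸ h)
  · rintro (⟨m, hm, h⟩ | h)
    · exact ⟨m, Nat.lt_succ_of_lt hm, h⟩
    · exact ⟨n, Nat.lt_succ_self n, h⟩

omit [TopologicalSpace X] in
theorem AA_mono {D : ℕ → Set X} {m n : ℕ} (h : m ≤ n) : AA D m ⊆ AA D n := by
  rintro x ⟨k, hk, hx⟩
  exact ⟨k, lt_of_lt_of_le hk h, hx⟩

variable {D : ℕ → Set X}

/-- the data -/
structure Dat (D : ℕ → Set X) where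
  /-- projection -/
  E : ℕ → ↥(Cp X) →L[ℝ] ↥(Cp X)
  hE : ∀ n (f : ↥(Cp X)), ∀ x ∈ AA D n, (E n f).1 x = f.1 x
  hE' : ∀ n (f g : ↥(Cp X)), (∀ x ∈ AA D n, f.1 x = g.1 x) → E n f = E n g
  /-- extension -/
  j : ∀ n, ↥(Rv (D n) (Ear D n)) →L[ℝ] ↥(Cp X)
  hj : ∀ n (g : ↥(Rv (D n) (Ear D n))) (x : D n), (j n g).1 x.1 = g.1 x
  hj0 : ∀ n (g : ↥(Rv (D n) (Ear D n))), ∀ x ∈ AA D n, (j n g).1 x = 0

/-- the partial sums -/
noncomputable def FF (d : Dat D) : ℕ → (∀ n, ↥(Rv (D n) (Ear D n))) →L[ℝ] ↥(Cp X)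
  | 0 => 0
  | n + 1 => (d.E n).comp (FF d n) + (d.j n).comp (ContinuousLinearMap.proj n)

theorem FF_succ (d : Dat D) (n : ℕ) (g : ∀ n, ↥(Rv (D n) (Ear D n))) :
    FF d (n + 1) g = d.E n (FF d n g) + d.j n (g n) := rfl

theorem FF_step (d : Dat D) (n : ℕ) (g : ∀ n, ↥(Rv (D n) (Ear D n))) (x : X)
    (hx : x ∈ AA D n) : (FF d (n + 1) g).1 x = (FF d n g).1 x := by
  rw [FF_succ]
  change (d.E n (FF d n g)).1 x + (d.j n (g n)).1 x = _
  rw [d.hE n _ x hx, d.hj0 n _ x hx, add_zero]

theorem FF_stab (d : Dat D) (n k : ℕ) (g : ∀ n, ↥(Rv (D n) (Ear D n))) (x : X)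
    (hx : x ∈ AA D n) : (FF d (n + k) g).1 x = (FF d n g).1 x := by
  induction k with
  | zero => rfl
  | succ k ih =>
    rw [← ih]
    exact FF_step d (n + k) g x (AA_mono (Nat.le_add_right n k) hx)

theorem FF_eq (d : Dat D) (m n : ℕ) (g : ∀ n, ↥(Rv (D n) (Ear D n))) (x : X)
    (hm : x ∈ AA D m) (hn : x ∈ AA D n) : (FF d m g).1 x = (FF d n g).1 x := by
  rcases le_total m n with h | h
  · obtain ⟨k, rfl⟩ := Nat.exists_eq_add_of_le h
    exact (FF_stab d m k g x hm).symm
  · obtain ⟨k, rfl⟩ := Nat.exists_eq_add_of_le h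
    exact FF_stab d n k g x hn

/-- the limit function -/
noncomputable def psi (d : Dat D) (N : X → ℕ) (g : ∀ n, ↥(Rv (D n) (Ear D n))) : X → ℝ :=
  fun x => (FF d (N x) g).1 x

theorem psi_eq (d : Dat D) (N : X → ℕ) (hN : ∀ x, x ∈ AA D (N x))
    (g : ∀ n, ↥(Rv (D n) (Ear D n))) (n : ℕ) (x : X) (hx : x ∈ AA D n) :
    psi d N g x = (FF d n g).1 x := FF_eq d _ _ g x (hN x) hx

theorem psi_cont (d : Dat D) (hl : LocallyFinite D) (N : X → ℕ) (hN : ∀ x, x ∈ AA D (N x))
    (g : ∀ n, ↥(Rv (D n) (Ear D n))) : Continuous (psi d N g) := by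
  rw [continuous_iff_continuousAt]
  intro x
  obtain ⟨W, hW, hfin⟩ := hl x
  obtain ⟨M, hM⟩ := hfin.bddAbove
  have h1 : ∀ y ∈ W, y ∈ AA D (M + 1) := by
    intro y hy
    obtain ⟨m, _, hm⟩ := hN y
    exact ⟨m, Nat.lt_succ_of_le (hM (show m ∈ {i | (D i ∩ W).Nonempty} from ⟨y, hm, hy⟩)), hm⟩
  have h2 : ContinuousAt (FF d (M + 1) g).1 x :=
    (show Continuous (FF d (M + 1) g).1 from (FF d (M + 1) g).2).continuousAt
  refine h2.congr ?_
  filter_upwards [hW] with y hy
  exact (psi_eq d N hN g (M + 1) y (h1 y hy)).symm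

/-- the decomposition -/
noncomputable def decE (d : Dat D) (hl : LocallyFinite D) (N : X → ℕ)
    (hN : ∀ x, x ∈ AA D (N x)) : ↥(Cp X) ≃L[ℝ] (∀ n, ↥(Rv (D n) (Ear D n))) where
  toFun := fun f n => ⟨fun x => f.1 x.1 - (d.E n f).1 x.1,
    ((show Continuous f.1 from f.2).comp continuous_subtype_val).sub
      ((show Continuous (d.E n f).1 from (d.E n f).2).comp continuous_subtype_val),
    fun x hx => sub_eq_zero.2 (d.hE n f x.1 hx).symm⟩
  map_add' := by
    intro f g
    funext n
    apply Subtype.ext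
    funext x
    have h : d.E n (f + g) = d.E n f + d.E n g := map_add _ _ _
    change (f + g).1 x.1 - (d.E n (f + g)).1 x.1 =
      (f.1 x.1 - (d.E n f).1 x.1) + (g.1 x.1 - (d.E n g).1 x.1)
    rw [h]
    change (f.1 x.1 + g.1 x.1) - ((d.E n f).1 x.1 + (d.E n g).1 x.1) = _
    ring
  map_smul' := by
    intro c f
    funext n
    apply Subtype.ext
    funext x
    have h : d.E n (c • f) = c • d.E n f := map_smul _ _ _
    change (c • f).1 x.1 - (d.E n (c • f)).1 x.1 =
      c * (f.1 x.1 - (d.E n f).1 x.1)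
    rw [h]
    change c * f.1 x.1 - c * (d.E n f).1 x.1 = _
    ring
  invFun := fun g => ⟨psi d N g, psi_cont d hl N hN g⟩
  left_inv := by
    intro f
    apply Subtype.ext
    funext x
    change (FF d (N x) _).1 x = f.1 x
    have key : ∀ n, ∀ y ∈ AA D n, (FF d n (fun n => (⟨fun x => f.1 x.1 - (d.E n f).1 x.1,
        ((show Continuous f.1 from f.2).comp continuous_subtype_val).sub
          ((show Continuous (d.E n f).1 from (d.E n f).2).comp continuous_subtype_val),
        fun x hx => sub_eq_zero.2 (d.hE n f x.1 hx).symm⟩ : ↥(Rv (D n) (Ear D n))))).1 y = f.1 y := by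
      intro n
      induction n with
      | zero =>
        rintro y ⟨m, hm, _⟩
        exact absurd hm (Nat.not_lt_zero m)
      | succ n ih =>
        intro y hy
        by_cases h : y ∈ AA D n
        · rw [FF_step d n _ y h]
          exact ih y h
        · have h' : y ∈ D n := (AA_succ.1 hy).resolve_left h
          rw [FF_succ]
          change (d.E n _).1 y + (d.j n _).1 y = _
          rw [d.hE' n _ f ih, d.hj n _ (⟨y, h'⟩ : D n)]
          change (d.E n f).1 y + (f.1 y - (d.E n f).1 y) = f.1 y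
          ring
    exact key (N x) x (hN x)
  right_inv := by
    intro g
    funext n
    apply Subtype.ext
    funext x
    change psi d N g x.1 - (d.E n ⟨psi d N g, psi_cont d hl N hN g⟩).1 x.1 = (g n).1 x
    have h1 : x.1 ∈ AA D (n + 1) := ⟨n, Nat.lt_succ_self n, x.2⟩
    rw [psi_eq d N hN g (n + 1) x.1 h1,
      d.hE' n ⟨psi d N g, psi_cont d hl N hN g⟩ (FF d n g)
        (fun y hy => psi_eq d N hN g n y hy), FF_succ]
    change (d.E n (FF d n g)).1 x.1 + (d.j n (g n)).1 x.1 - (d.E n (FF d n g)).1 x.1 = _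
    rw [d.hj n (g n) x]
    ring
  continuous_toFun := by
    refine continuous_pi fun n => ?_
    refine Continuous.subtype_mk ?_ _
    refine continuous_pi fun x => ?_
    exact ((continuous_apply x.1).comp continuous_subtype_val).sub
      ((continuous_apply x.1).comp (continuous_subtype_val.comp (d.E n).continuous))
  continuous_invFun := by
    refine Continuous.subtype_mk ?_ _
    refine continuous_pi fun x => ?_
    exact (continuous_apply x).comp (continuous_subtype_val.comp (FF d (N x)).continuous)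

end

theorem dec (hdug : DugStmt) (hjex : JexStmt) : DecStmt := by
  intro X _ _ D hD hl hc
  have hAA := AA_closed hD
  choose e he using fun n => hdug X (AA D n) (hAA n)
  choose j hj using fun n => hjex X (AA D n) (D n) (hAA n) (hD n)
  choose m hm using hc
  let d : Dat D :=
    { E := fun n => (e n).comp (res (AA D n))
      hE := fun n f x hx => he n (res (AA D n) f) ⟨x, hx⟩
      hE' := by
        intro n f g h
        have : res (AA D n) f = res (AA D n) g := by
          apply Subtype.ext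
          funext x
          exact h x.1 x.2
        change e n (res (AA D n) f) = e n (res (AA D n) g)
        rw [this]
      j := j
      hj := fun n g x => (hj n g).1 x
      hj0 := fun n g x hx => (hj n g).2 x hx }
  exact ⟨decE d hl (fun x => m x + 1) (fun x => ⟨m x, Nat.lt_succ_self _, hm x⟩)⟩

end Pool.Agent.NPG.H26
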